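import Pool.Agent.H44.KH2

open Finset Pool.Agent.H44.KH

namespace Pool.Agent.Results.MP_223ae3_pr.Deficit

theorem result : ∃ C : ℝ, 0 < C ∧ ∀ n : ℕ, 1 ≤ n → ∀ a : Fin n → ℝ, ∑ i, a i ^ 2 = 1 →
    (∑ ε : Fin n → Bool, |∑ i, a i * sg (ε i)| ^ 3) / 2 ^ n ≤
      (∑ ε : Fin n → Bool, |(√(n : ℝ))⁻¹ * ∑ i, sg (ε i)| ^ 3) / 2 ^ n -
        C * ∑ i, (a i ^ 2 - (n : ℝ)⁻¹) ^ 2 := by
  refine ⟨1 / 100000, by norm_num, fun n hn a ha => ?_⟩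
  have h := main hn a ha
  simp only [mul_sum]
  simp only [F, D, Ex, mul_sum] at h
  exact h

end Pool.Agent.Results.MP_223ae3_pr.Deficit
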